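import Pool.Agent.H179Z.PCAMixing

set_option autoImplicit false

open MeasureTheory Filter Topology

namespace Pool.Agent.Results.MP_3c7ff8_pr.ErgodicMixing

open Pool.Agent.H179Z.PCA

/-- The unique invariant measure of every ergodic probabilistic cellular automaton is shift
invariant and spatially mixing. -/
theorem result (d : ℕ) (A : Type) [Fintype A] [MeasurableSpace A] [DiscreteMeasurableSpace A]
    [TopologicalSpace A] [DiscreteTopology A]
    (N : Finset (Fin d → ℤ)) (φ : (N → A) → PMF A) (π : Measure ((Fin d → ℤ) → A))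
    (h : ErgodicWith N φ π) :
    (∀ k : Fin d → ℤ, π.map (shift k) = π) ∧
    ∀ (D E : Finset (Fin d → ℤ)) (u v : (Fin d → ℤ) → A),
      Tendsto (fun k : Fin d → ℤ => π (cyl D u ∩ shift k ⁻¹' cyl E v))
        (comap (fun k : Fin d → ℤ => ‖k‖) atTop) (𝓝 (π (cyl D u) * π (cyl E v))) :=
  ⟨shift_invariant N φ h, mixing N φ h⟩

end Pool.Agent.Results.MP_3c7ff8_pr.ErgodicMixing
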